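import Pool.Agent.H232.Body4

set_option autoImplicit false

/-!
# The typical convex drum can be heard

In the space of all plane convex bodies with the Hausdorff distance, which is a Baire space, the bodies
which are determined up to congruence by their Dirichlet spectrum among all bounded convex domains are
a dense `G_δ` set. Hence the convex bodies which have an isospectral convex companion that is not
congruent to them are a meagre set. Every body which is determined is determined with stability: a
convex domain whose first `N` eigenvalues are `δ`-close to those of the body is `ε`-close to the body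
in the Hausdorff distance, up to congruence.

Main idea: The density follows from the density of the convex polygons which are determined among all
convex domains. For the `G_δ` property one needs that the bodies which have an isospectral companion at
the distance `ε` at least (up to congruence) are a closed set. This follows from a compactness theorem:
the eigenvalues are continuous in the Hausdorff distance, and convex domains with bounded first
eigenvalue and a lower bound for another eigenvalue have inradius bounded below and bounded diameter,
hence they subconverge up to congruence to a convex body.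
-/

open MeasureTheory Filter Set TopologicalSpace
open Pool.Agent.W703.GP (dirichletEigenvalue)

namespace Pool.Agent.Results.MP_c1b9d3_an.TypicalConvexDrum

/-- a bounded convex domain of the plane -/
structure ConvexDomain (D : Set ℂ) : Prop where
  isOpen : IsOpen D
  convex : Convex ℝ D
  isBounded : Bornology.IsBounded D
  nonempty : D.Nonempty

/-- congruence: `φ : ℂ ≃ᵢ ℂ` is an isometry of the plane -/
def Congruent (D D' : Set ℂ) : Prop := ∃ φ : ℂ ≃ᵢ ℂ, φ '' D = D'

/-- `D` is determined by its Dirichlet spectrum among all bounded convex domains -/
def Determined (D : Set ℂ) : Prop := ∀ D' : Set ℂ, ConvexDomain D' →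
  (∀ k, 1 ≤ k → dirichletEigenvalue D k = dirichletEigenvalue D' k) → Congruent D D'

/-- finitely many eigenvalues, known approximately, determine the shape of `D` approximately -/
def Stable (D : Set ℂ) : Prop := ∀ ε : ℝ, 0 < ε → ∃ (N : ℕ) (δ : ℝ), 0 < δ ∧
  ∀ D' : Set ℂ, ConvexDomain D' →
    (∀ k, 1 ≤ k → k ≤ N → |dirichletEigenvalue D' k - dirichletEigenvalue D k| < δ) →
      ∃ φ : ℂ ≃ᵢ ℂ, Metric.hausdorffDist (φ '' D') D < ε

/-- the space of plane convex bodies (compact convex sets with interior points), a subspace of the
metric space `NonemptyCompacts ℂ` of all nonempty compact sets with the Hausdorff distance. The bounded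
convex domains of the plane are the interiors of the convex bodies. -/
abbrev Body : Type :=
  {K : NonemptyCompacts ℂ // Convex ℝ (K : Set ℂ) ∧ (interior (K : Set ℂ)).Nonempty}

/-- The bounded convex domains are the interiors of the convex bodies; the space of convex bodies is
a Baire space; the bodies whose interior is determined by its spectrum are a dense countable
intersection of open sets, hence the other bodies are meagre; and each determined body is determined
with stability. -/
theorem result :
    (∀ D : Set ℂ, ConvexDomain D ↔ ∃ K : Body, interior (K.1 : Set ℂ) = D) ∧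
    BaireSpace Body ∧
    IsGδ {K : Body | Determined (interior (K.1 : Set ℂ))} ∧
    Dense {K : Body | Determined (interior (K.1 : Set ℂ))} ∧
    IsMeagre {K : Body | ¬ Determined (interior (K.1 : Set ℂ))} ∧
    ∀ K : Body, Determined (interior (K.1 : Set ℂ)) → Stable (interior (K.1 : Set ℂ)) := by
  have hdet : ∀ K : Body, Determined (interior (K.1 : Set ℂ)) ↔ Pool.Agent.H232.CB.Det K.1 := by
    intro K
    constructor
    · exact fun h D h1 h2 h3 h4 h5 => h D ⟨h1, h2, h3, h4⟩ h5
    · exact fun h D hD hs => h D hD.isOpen hD.convex hD.isBounded hD.nonempty hs
  have hset : {K : Body | Determined (interior (K.1 : Set ℂ))} =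
      {K : Body | Pool.Agent.H232.CB.Det K.1} := by
    ext K
    exact hdet K
  have hT := Pool.Agent.H232.CB.typical
  have hG : IsGδ {K : Body | Determined (interior (K.1 : Set ℂ))} := by rw [hset]; exact hT.1
  have hD : Dense {K : Body | Determined (interior (K.1 : Set ℂ))} := by rw [hset]; exact hT.2
  have hbody : ∀ D : Set ℂ, ConvexDomain D → ∃ K : Body, interior (K.1 : Set ℂ) = D ∧
      (K.1 : Set ℂ) = closure D := by
    intro D hD
    have hi : interior (closure D) = D := by
      rw [hD.convex.interior_closure_eq_interior_of_nonempty_interior
        (by rw [hD.isOpen.interior_eq]; exact hD.nonempty), hD.isOpen.interior_eq]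
    exact ⟨⟨⟨⟨closure D, hD.isBounded.isCompact_closure⟩, hD.nonempty.closure⟩,
      hD.convex.closure, by
        show (interior (closure D)).Nonempty
        rw [hi]; exact hD.nonempty⟩, hi, rfl⟩
  refine ⟨fun D => ⟨fun hD => ?_, ?_⟩, Pool.Agent.H232.CB.baire, hG, hD, ?_, fun K hK ε hε => ?_⟩
  · obtain ⟨K, h1, -⟩ := hbody D hD
    exact ⟨K, h1⟩
  · rintro ⟨K, rfl⟩
    exact ⟨isOpen_interior, K.2.1.interior, K.1.isCompact.isBounded.subset interior_subset, K.2.2⟩
  · have e : {K : Body | ¬ Determined (interior (K.1 : Set ℂ))} =
        {K : Body | Determined (interior (K.1 : Set ℂ))}ᶜ := rfl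
    rw [e, IsMeagre, compl_compl]
    exact residual_of_dense_Gδ hG hD
  · obtain ⟨N, δ, hδ, h⟩ := Pool.Agent.H232.CB.stable K.2 ((hdet K).1 hK) hε
    refine ⟨N, δ, hδ, fun D' hD' hk => ?_⟩
    obtain ⟨L, h1, h2⟩ := hbody D' hD'
    obtain ⟨φ, hφ⟩ := h L.1 L.2 fun k h3 h4 => by
      unfold Pool.Agent.H232.CB.lam
      rw [h1]
      exact hk k h3 h4
    refine ⟨φ, ?_⟩
    rw [Metric.NonemptyCompacts.dist_eq, Pool.Agent.H232.CB.coe_mv, h2,
      ← Pool.Agent.H232.CB.closure_int K.2] at hφ
    have h5 : φ '' closure D' = closure (φ '' D') := φ.toHomeomorph.image_closure D'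
    rwa [h5, Metric.hausdorffDist_closure] at hφ

end Pool.Agent.Results.MP_c1b9d3_an.TypicalConvexDrum
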